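import Pool.Agent.Work.MP_64ea0f_cs.InterfaceC

set_option autoImplicit false

/-! # Block C_SYM (helper43): shifts and the translation are symmetries -/

namespace Pool.CS
namespace H43C

variable {Λ : Type} {G : SimpleGraph Λ} (H : Per G)

theorem kpos : (0:ℤ) < H.k := by exact_mod_cast H.pos

theorem per_mul (i n : ℤ) : H.s (i + H.k * n) = H.s i := by
  induction n using Int.induction_on with
  | zero => rw [mul_zero, add_zero]
  | succ n ih => rw [mul_add, mul_one, ← add_assoc, H.per, ih]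
  | pred n ih =>
    have h := H.per (i + H.k * (-(n:ℤ) - 1))
    rw [← h]
    have e : i + H.k * (-(n:ℤ) - 1) + H.k = i + H.k * (-(n:ℤ)) := by ring
    rw [e, ih]

theorem per_sub (i n : ℤ) : H.s (i - H.k * n) = H.s i := by
  have := per_mul H i (-n)
  rwa [mul_neg, ← sub_eq_add_neg] at this

theorem per_sub_k (i : ℤ) : H.s (i - H.k) = H.s i := by
  have := per_sub H i 1
  rwa [mul_one] at this

/-- every place is congruent to one in `[1, k]` -/
theorem rep (i : ℤ) : ∃ p n : ℤ, 1 ≤ p ∧ p ≤ H.k ∧ i = p + H.k * n := by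
  refine ⟨(i - 1) % H.k + 1, (i - 1) / H.k, ?_, ?_, ?_⟩
  · have := Int.emod_nonneg (i - 1) (kpos H).ne'
    omega
  · have := Int.emod_lt_of_pos (i - 1) (kpos H)
    omega
  · have := Int.emod_add_mul_ediv (i - 1) H.k
    linarith

theorem iso_dep_eq {i j : ℤ} (hd : dep G (H.s i) (H.s j)) (h : H.iso (H.s i)) :
    H.s j = H.s i := by
  by_contra hne
  have ha : G.Adj (H.s i) (H.s j) := h j hne
  rcases hd with e | e
  · exact hne e.symm
  · exact e ha

/-- an isolated letter has exactly one active place -/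
theorem iso_uniq (n : ℕ) : ∀ i j : ℤ, (j - i).toNat = n → H.act i → H.act j → i < j →
    H.s i = H.s j → H.iso (H.s i) → False := by
  induction n using Nat.strong_induction_on with
  | _ n ih =>
    intro i j hn hi hj hij hs hiso
    obtain ⟨l, hl, h1, h2, h3⟩ := H.red' hi hj hij hs
    have h4 : H.s l = H.s i := iso_dep_eq H (dep_symm h3) hiso
    exact ih (l - i).toNat (by omega) i l rfl hi hl h1 h4.symm hiso

theorem dep_niso {i j : ℤ} (hi : H.act i) (hj : H.act j) (hij : i < j)
    (hd : dep G (H.s i) (H.s j)) : ¬ H.iso (H.s i) ∧ ¬ H.iso (H.s j) := by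
  constructor
  · intro h
    exact iso_uniq H _ i j rfl hi hj hij (iso_dep_eq H hd h).symm h
  · intro h
    have h1 : H.s i = H.s j := iso_dep_eq H (dep_symm hd) h
    exact iso_uniq H _ i j rfl hi hj hij h1 (by rw [h1]; exact h)

theorem mem_flip {D : Set ℤ} {i j : ℤ} : j ∈ symmDiff D {i} ↔ ¬ (j ∈ D ↔ j = i) := by
  rw [Set.mem_symmDiff, Set.mem_singleton_iff]
  tauto

theorem mem_sd {D D' : Set ℤ} {j : ℤ} : j ∈ symmDiff D D' ↔ ¬ (j ∈ D ↔ j ∈ D') := by
  rw [Set.mem_symmDiff]
  tauto

theorem mem_sh (f : Λ → ℤ) (D : Set ℤ) (i : ℤ) : i ∈ H.sh f D ↔ i - H.k * f (H.s i) ∈ D := Iff.rfl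

theorem mem_D0 (i : ℤ) : i ∈ Per.D0 ↔ i ≤ 0 := Iff.rfl

/-- a bound for the shifts -/
theorem bound (f : Λ → ℤ) : ∃ B : ℤ, 0 ≤ B ∧ ∀ i, |H.k * f (H.s i)| ≤ B := by
  refine ⟨∑ p ∈ Finset.Icc (1:ℤ) H.k, |H.k * f (H.s p)|,
    Finset.sum_nonneg fun p _ => abs_nonneg _, ?_⟩
  intro i
  obtain ⟨p, n, h1, h2, rfl⟩ := rep H i
  rw [per_mul]
  exact Finset.single_le_sum (f := fun p => |H.k * f (H.s p)|) (fun q _ => abs_nonneg _)
    (Finset.mem_Icc.2 ⟨h1, h2⟩)

/-- the bijection of a shift -/
def shE (f : Λ → ℤ) : ℤ ≃ ℤ where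
  toFun i := i + H.k * f (H.s i)
  invFun i := i - H.k * f (H.s i)
  left_inv i := by
    change i + H.k * f (H.s i) - H.k * f (H.s (i + H.k * f (H.s i))) = i
    rw [per_mul]; ring
  right_inv i := by
    change i - H.k * f (H.s i) + H.k * f (H.s (i - H.k * f (H.s i))) = i
    rw [per_sub]; ring

theorem cut_sh {f : Λ → ℤ} (hf : H.LC f) {D : Set ℤ} (hD : H.Cut D) : H.Cut (H.sh f D) := by
  have hact : ∀ i, H.act i → H.act (i - H.k * f (H.s i)) := by
    intro i hi
    by_cases hiso : H.iso (H.s i)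
    · rw [hf.2.1 _ hiso, mul_zero, sub_zero]; exact hi
    · left; rw [per_sub]; exact hiso
  refine ⟨?_, ?_, ?_⟩
  · intro i j hi hj hij hd hjD
    rw [mem_sh] at hjD ⊢
    have hfe : f (H.s i) = f (H.s j) := hf.1 i j hd
    refine hD.1 _ _ (hact i hi) (hact j hj) (by rw [hfe]; omega) ?_ hjD
    rw [per_sub, per_sub]; exact hd
  · intro i hi
    have hiso : H.iso (H.s i) := by
      by_contra h
      exact hi (Or.inl h)
    rw [mem_sh, hf.2.1 _ hiso, mul_zero, sub_zero]
    exact hD.2.1 i hi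
  · obtain ⟨B, hB0, hB⟩ := bound H f
    refine ((hD.2.2.image (shE H f)).union (Set.finite_Icc (-B) B)).subset ?_
    intro i hi
    rw [mem_sd, mem_sh, mem_D0] at hi
    by_cases h : i - H.k * f (H.s i) ∈ symmDiff D Per.D0
    · left
      exact ⟨_, h, (shE H f).right_inv i⟩
    · right
      rw [mem_sd, mem_D0, not_not] at h
      have hb := abs_le.1 (hB i)
      rw [h] at hi
      rw [Set.mem_Icc]
      constructor
      · by_contra hc
        push Not at hc
        exact hi ⟨fun _ => by omega, fun _ => by omega⟩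
      · by_contra hc
        push Not at hc
        exact hi ⟨fun _ => by omega, fun _ => by omega⟩

theorem lc_neg {f : Λ → ℤ} (hf : H.LC f) : H.LC (-f) := by
  refine ⟨fun i j h => ?_, fun t h => ?_, fun t h => ?_⟩
  · rw [Pi.neg_apply, Pi.neg_apply, hf.1 i j h]
  · rw [Pi.neg_apply, hf.2.1 t h, neg_zero]
  · rw [Pi.neg_apply, hf.2.2 t h, neg_zero]

theorem sh_neg (f : Λ → ℤ) (D : Set ℤ) : H.sh (-f) (H.sh f D) = D := by
  ext i
  rw [mem_sh, mem_sh, per_sub, Pi.neg_apply]
  have : i - H.k * -f (H.s i) - H.k * f (H.s i) = i := by ring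
  rw [this]

theorem sym_sh {f : Λ → ℤ} (hf : H.LC f) : H.Sym (H.sh f) := by
  refine ⟨fun D => ⟨fun h => cut_sh H hf h, fun h => ?_⟩, shE H f, fun i => per_mul H i _, ?_⟩
  · have := cut_sh H (lc_neg H hf) h
    rwa [sh_neg] at this
  · intro D i
    ext j
    rw [mem_sh, mem_flip, mem_flip, mem_sh]
    have e : (j - H.k * f (H.s j) = i) ↔ (j = (shE H f) i) := by
      constructor
      · rintro rfl
        exact ((shE H f).right_inv j).symm
      · rintro rfl
        exact (shE H f).left_inv i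
    rw [e]

theorem tr_niso {D : Set ℤ} {i : ℤ} (h : ¬ H.iso (H.s i)) : i ∈ H.tr D ↔ i - H.k ∈ D := by
  change ((¬ H.iso (H.s i) ∧ i - H.k ∈ D) ∨ (H.iso (H.s i) ∧ H.act i ∧ i ∉ D) ∨
    (H.iso (H.s i) ∧ ¬ H.act i ∧ i ∈ D)) ↔ i - H.k ∈ D
  tauto

theorem tr_act {D : Set ℤ} {i : ℤ} (h : H.iso (H.s i)) (ha : H.act i) : i ∈ H.tr D ↔ i ∉ D := by
  change ((¬ H.iso (H.s i) ∧ i - H.k ∈ D) ∨ (H.iso (H.s i) ∧ H.act i ∧ i ∉ D) ∨
    (H.iso (H.s i) ∧ ¬ H.act i ∧ i ∈ D)) ↔ i ∉ D
  tauto

theorem tr_nact {D : Set ℤ} {i : ℤ} (ha : ¬ H.act i) : i ∈ H.tr D ↔ i ∈ D := by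
  have h : H.iso (H.s i) := by
    by_contra h
    exact ha (Or.inl h)
  change ((¬ H.iso (H.s i) ∧ i - H.k ∈ D) ∨ (H.iso (H.s i) ∧ H.act i ∧ i ∉ D) ∨
    (H.iso (H.s i) ∧ ¬ H.act i ∧ i ∈ D)) ↔ i ∈ D
  tauto

/-- an active place of an isolated letter is in the window -/
theorem act_iso {i : ℤ} (h : H.iso (H.s i)) (ha : H.act i) : 1 ≤ i ∧ i ≤ H.k := by
  rcases ha with h' | h'
  · exact absurd h h'
  · exact h'

theorem cut_tr {D : Set ℤ} (hD : H.Cut D) : H.Cut (H.tr D) := by
  have hk := kpos H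
  refine ⟨?_, ?_, ?_⟩
  · intro i j hi hj hij hd hjD
    obtain ⟨ni, nj⟩ := dep_niso H hi hj hij hd
    rw [tr_niso H nj] at hjD
    rw [tr_niso H ni]
    refine hD.1 _ _ ?_ ?_ (by omega) ?_ hjD
    · left; rw [per_sub_k]; exact ni
    · left; rw [per_sub_k]; exact nj
    · rw [per_sub_k, per_sub_k]; exact hd
  · intro i hi
    rw [tr_nact H hi]
    exact hD.2.1 i hi
  · refine ((hD.2.2.union (hD.2.2.image (fun i : ℤ => i + (H.k:ℤ)))).union
      (Set.finite_Icc (1:ℤ) H.k)).subset ?_
    intro i hi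
    rw [mem_sd, mem_D0] at hi
    by_cases hiso : H.iso (H.s i)
    · by_cases ha : H.act i
      · right
        rw [Set.mem_Icc]
        exact act_iso H hiso ha
      · left; left
        rw [tr_nact H ha] at hi
        rw [mem_sd, mem_D0]; exact hi
    · rw [tr_niso H hiso] at hi
      by_cases h : i - H.k ∈ symmDiff D Per.D0
      · left; right
        exact ⟨_, h, by ring⟩
      · right
        rw [mem_sd, mem_D0, not_not] at h
        rw [h] at hi
        rw [Set.mem_Icc]
        constructor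
        · by_contra hc
          push Not at hc
          exact hi ⟨fun _ => by omega, fun _ => by omega⟩
        · by_contra hc
          push Not at hc
          exact hi ⟨fun _ => by omega, fun _ => by omega⟩

theorem cut_of_tr {D : Set ℤ} (hD : H.Cut (H.tr D)) : H.Cut D := by
  have hk := kpos H
  have hp : ∀ i, H.s (i + H.k) = H.s i := H.per
  have key : ∀ i, ¬ H.iso (H.s i) → (i + H.k ∈ H.tr D ↔ i ∈ D) := by
    intro i h
    rw [tr_niso H (by rw [hp]; exact h), add_sub_cancel_right]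
  refine ⟨?_, ?_, ?_⟩
  · intro i j hi hj hij hd hjD
    obtain ⟨ni, nj⟩ := dep_niso H hi hj hij hd
    rw [← key j nj] at hjD
    rw [← key i ni]
    refine hD.1 _ _ ?_ ?_ (by omega) ?_ hjD
    · left; rw [hp]; exact ni
    · left; rw [hp]; exact nj
    · rw [hp, hp]; exact hd
  · intro i hi
    rw [← tr_nact H hi]
    exact hD.2.1 i hi
  · refine ((hD.2.2.union (hD.2.2.image (fun i : ℤ => i - (H.k:ℤ)))).union
      ((Set.finite_Icc (1:ℤ) H.k).union (Set.finite_Icc (-(H.k:ℤ)) 0))).subset ?_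
    intro i hi
    rw [mem_sd, mem_D0] at hi
    by_cases hiso : H.iso (H.s i)
    · by_cases ha : H.act i
      · right; left
        rw [Set.mem_Icc]
        exact act_iso H hiso ha
      · left; left
        rw [← tr_nact H ha] at hi
        rw [mem_sd, mem_D0]; exact hi
    · rw [← key i hiso] at hi
      by_cases h : i + H.k ∈ symmDiff (H.tr D) Per.D0
      · left; right
        exact ⟨_, h, by ring⟩
      · right; right
        rw [mem_sd, mem_D0, not_not] at h
        rw [h] at hi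
        rw [Set.mem_Icc]
        constructor
        · by_contra hc
          push Not at hc
          exact hi ⟨fun _ => by omega, fun _ => by omega⟩
        · by_contra hc
          push Not at hc
          exact hi ⟨fun _ => by omega, fun _ => by omega⟩

open Classical in
/-- the bijection of the translation -/
noncomputable def trE : ℤ ≃ ℤ where
  toFun i := if H.iso (H.s i) then i else i + H.k
  invFun i := if H.iso (H.s i) then i else i - H.k
  left_inv i := by
    by_cases h : H.iso (H.s i)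
    · simp only [if_pos h]
    · have h' : ¬ H.iso (H.s (i + H.k)) := by rw [H.per]; exact h
      simp only [if_neg h, if_neg h']
      ring
  right_inv i := by
    by_cases h : H.iso (H.s i)
    · simp only [if_pos h]
    · have h' : ¬ H.iso (H.s (i - H.k)) := by rw [per_sub_k]; exact h
      simp only [if_neg h, if_neg h']
      ring

theorem trE_iso {i : ℤ} (h : H.iso (H.s i)) : trE H i = i := if_pos h

theorem trE_niso {i : ℤ} (h : ¬ H.iso (H.s i)) : trE H i = i + H.k := if_neg h

theorem trE_s (i : ℤ) : H.s (trE H i) = H.s i := by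
  by_cases h : H.iso (H.s i)
  · rw [trE_iso H h]
  · rw [trE_niso H h, H.per]

theorem sym_tr : H.Sym H.tr := by
  refine ⟨fun D => ⟨cut_tr H, cut_of_tr H⟩, trE H, trE_s H, ?_⟩
  intro D i
  ext j
  rw [mem_flip]
  by_cases hj : H.iso (H.s j)
  · have e : (j = trE H i) ↔ (j = i) := by
      constructor
      · intro h
        have h2 : H.iso (H.s i) := by rw [← trE_s H i, ← h]; exact hj
        rwa [trE_iso H h2] at h
      · rintro rfl
        exact (trE_iso H hj).symm
    rw [e]
    by_cases ha : H.act j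
    · rw [tr_act H hj ha, tr_act H hj ha, mem_flip]
      tauto
    · rw [tr_nact H ha, tr_nact H ha, mem_flip]
  · have e : (j = trE H i) ↔ (j - H.k = i) := by
      constructor
      · intro h
        have h2 : ¬ H.iso (H.s i) := by rw [← trE_s H i, ← h]; exact hj
        rw [trE_niso H h2] at h
        rw [h]; ring
      · intro h
        have h2 : ¬ H.iso (H.s i) := by rw [← h, per_sub_k]; exact hj
        rw [trE_niso H h2, ← h]; ring
    rw [e, tr_niso H hj, tr_niso H hj, mem_flip]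

end H43C

open H43C in
theorem c_sym_thm : Stmt_C_SYM := fun _ _ H => ⟨fun _ hf => sym_sh H hf, sym_tr H⟩

end Pool.CS
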