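import Pool.Agent.Work.MP_64ea0f_cs.InterfaceB

set_option autoImplicit false

/-! # Block DEV (helper43): the development of the flip action -/

namespace Pool.CS
namespace H43D

variable {D : Rd} {H : Subgroup D.W}

/-- the label of a root -/
def mk (H : Subgroup D.W) (φ : D.V) (hφ : φ ∈ D.Rt) : D.Lb H := ⟨D.lab H φ, φ, hφ, rfl⟩

theorem mem_lab (φ : D.V) : φ ∈ D.lab H φ := ⟨1, H.one_mem, Or.inl (by rw [map_one]; rfl)⟩

theorem neg_mem_lab (φ : D.V) : -φ ∈ D.lab H φ := ⟨1, H.one_mem, Or.inr (by rw [map_one]; rfl)⟩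

theorem lab_eq {φ ψ : D.V} (h : ψ ∈ D.lab H φ) : D.lab H ψ = D.lab H φ := by
  obtain ⟨k, hk, hψ⟩ := h
  have hinv : ∀ (g : D.W) (v : D.V), D.ρ (g * k⁻¹) (D.ρ k v) = D.ρ g v := by
    intro g v
    rw [← Module.End.mul_apply, ← map_mul, inv_mul_cancel_right]
  ext χ
  constructor
  · rintro ⟨g, hg, hχ⟩
    refine ⟨g * k, H.mul_mem hg hk, ?_⟩
    rw [map_mul, Module.End.mul_apply]
    rcases hψ with rfl | rfl
    · exact hχ
    · rw [map_neg] at hχ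
      rcases hχ with rfl | rfl
      · right; rfl
      · left; rw [neg_neg]
  · rintro ⟨g, hg, hχ⟩
    refine ⟨g * k⁻¹, H.mul_mem hg (H.inv_mem hk), ?_⟩
    rcases hψ with rfl | rfl
    · rw [hinv]; exact hχ
    · rw [map_neg, hinv, neg_neg]
      exact hχ.symm

theorem mk_eq_of_mem {a : D.Lb H} {φ : D.V} (hφ : φ ∈ D.Rt) (h : φ ∈ a.1) : a = mk H φ hφ := by
  obtain ⟨a, φ0, hφ0, rfl⟩ := a
  apply Subtype.ext
  exact (lab_eq h).symm

theorem mk_neg {φ : D.V} (hφ : φ ∈ D.Rt) (hφ' : -φ ∈ D.Rt) : mk H (-φ) hφ' = mk H φ hφ :=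
  Subtype.ext (lab_eq (neg_mem_lab φ))

/-- the graph of the development -/
inductive IsK (D : Rd) (H : Subgroup D.W) : Set D.V → RC (D.lg H) → Prop
  | base : IsK D H D.Ps 1
  | step (x : Set D.V) (φ : D.V) (hφ : D.Mn x φ) (hφ' : φ ∉ D.Ps) (hr : φ ∈ D.Rt)
      (γ : RC (D.lg H)) (h : IsK D H (D.fl x φ) γ) : IsK D H x (γ * rg (D.lg H) (mk H φ hr))

section
variable (h1 : Stmt_VX1) (h2 : Stmt_VX2) (h3 : Stmt_VX3) (h4 : Stmt_VX4)
include h1

theorem neg_mem_Ps {φ : D.V} (hr : φ ∈ D.Rt) (h : φ ∉ D.Ps) : -φ ∈ D.Ps :=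
  ((h1 D).1.tot φ hr).resolve_left h

theorem neg_not_Ps {φ : D.V} (h : φ ∈ D.Ps) : -φ ∉ D.Ps :=
  (h1 D).2.2.2.2.2.2.2.2.1 D.Ps (h1 D).1 φ h

theorem fl_diff {x : Set D.V} {φ : D.V} (hr : φ ∈ D.Rt) (h : φ ∉ D.Ps) :
    D.fl x φ \ D.Ps = (x \ D.Ps) \ {φ} := by
  have hn := neg_mem_Ps h1 hr h
  ext ψ
  simp only [Rd.fl, Set.mem_sdiff, Set.mem_insert_iff, Set.mem_singleton_iff]
  constructor
  · rintro ⟨rfl | ⟨a, b⟩, c⟩
    · exact absurd hn c
    · exact ⟨⟨a, c⟩, b⟩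
  · rintro ⟨⟨a, c⟩, b⟩
    exact ⟨Or.inr ⟨a, b⟩, c⟩

theorem fl_card {x : Set D.V} (hx : D.Vx x) {φ : D.V} (hφ : D.Mn x φ) (h : φ ∉ D.Ps) :
    (D.fl x φ \ D.Ps).ncard + 1 = (x \ D.Ps).ncard := by
  rw [fl_diff h1 (hx.sub hφ.1) h]
  exact Set.ncard_sdiff_singleton_add_one ⟨hφ.1, h⟩ hx.fin

theorem eq_Ps {x : Set D.V} (hx : D.Vx x) (h : (x \ D.Ps).ncard = 0) : x = D.Ps := by
  have hfin := hx.fin
  have h0 : x \ D.Ps = ∅ := (Set.ncard_eq_zero hfin).1 h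
  have hsub : x ⊆ D.Ps := Set.sdiff_eq_empty.1 h0
  exact ((h1 D).2.2.2.2.2.2.2.2.2.2 x hx D.Ps (h1 D).1).2.2 hsub

include h4 in
theorem exists_down {x : Set D.V} (hx : D.Vx x) (h : (x \ D.Ps).ncard ≠ 0) :
    ∃ φ, D.Mn x φ ∧ φ ∉ D.Ps := by
  have hne : (x \ D.Ps).Nonempty := by
    rw [Set.nonempty_iff_ne_empty]
    intro h0
    rw [h0, Set.ncard_empty] at h
    exact h rfl
  obtain ⟨φ, hφ, hφ'⟩ := hne
  obtain ⟨ψ, hψ, hψ', _⟩ := h4 D x hx D.Ps (h1 D).1 φ hφ hφ'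
  exact ⟨ψ, hψ, hψ'⟩

include h3 in
theorem cross {x : Set D.V} (hx : D.Vx x) {φ ψ : D.V} (hφ : D.Mn x φ) (hψ : D.Mn x ψ)
    (hφ' : φ ∉ D.Ps) (hψ' : ψ ∉ D.Ps) (hne : φ ≠ ψ) : |D.B φ ψ| < 1 := by
  rcases (h3 D x hx φ ψ).1 hφ hψ hne with h | ⟨_, h⟩
  · exact h
  · exfalso
    have e : D.On 1 (-φ) := by
      unfold Rd.On
      rw [inv_one, map_one]
      exact neg_mem_Ps h1 (hx.sub hφ.1) hφ'
    have e2 := h 1 e
    unfold Rd.On at e2
    rw [inv_one, map_one] at e2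
    exact hψ' e2

include h2 h3 h4 in
theorem isK_unique (hD : D.Deep H) (n : ℕ) : ∀ x : Set D.V, D.Vx x → (x \ D.Ps).ncard = n →
    ∃! γ, IsK D H x γ := by
  induction n using Nat.strong_induction_on with
  | _ n ih =>
    intro x hx hn
    by_cases h0 : n = 0
    · subst h0
      have hxe := eq_Ps h1 hx hn
      subst hxe
      refine ⟨1, IsK.base, ?_⟩
      intro γ hγ
      cases hγ with
      | base => rfl
      | step _ φ hφ hφ' hr γ h => exact absurd hφ.1 hφ'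
    · have hn' : (x \ D.Ps).ncard ≠ 0 := by rw [hn]; exact h0
      obtain ⟨φ, hφ, hφ'⟩ := exists_down h1 h4 hx hn'
      have hxφ := (h2 D x hx φ hφ).1
      have hcφ := fl_card h1 hx hφ hφ'
      obtain ⟨γ0, hγ0, hu0⟩ := ih _ (by omega) (D.fl x φ) hxφ rfl
      refine ⟨γ0 * rg (D.lg H) (mk H φ (hx.sub hφ.1)), IsK.step x φ hφ hφ' _ γ0 hγ0, ?_⟩
      intro γ hγ
      cases hγ with
      | base => exact absurd hφ.1 hφ'
      | step _ ψ hψ hψ' hr γ1 hγ1 =>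
        by_cases hne : φ = ψ
        · subst hne
          rw [hu0 γ1 hγ1]
        · have hc := cross h1 h3 hx hφ hψ hφ' hψ' hne
          obtain ⟨ha, hb⟩ := (h3 D x hx φ ψ).2.1 hφ hψ hc
          have hc' : |D.B ψ φ| < 1 := by rw [D.B_symm]; exact hc
          obtain ⟨ha', _⟩ := (h3 D x hx ψ φ).2.1 hψ hφ hc'
          have hxψ := (h2 D x hx ψ hψ).1
          have hcψ := fl_card h1 hx hψ hψ'
          have hz := (h2 D _ hxφ ψ ha).1
          have hcz := fl_card h1 hxφ ha hψ'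
          obtain ⟨δ, hδ, _⟩ := ih _ (by omega) (D.fl (D.fl x φ) ψ) hz rfl
          have e0 : δ * rg (D.lg H) (mk H ψ hr) = γ0 :=
            hu0 _ (IsK.step _ ψ ha hψ' hr δ hδ)
          obtain ⟨γ2, hγ2, hu2⟩ := ih _ (by omega) (D.fl x ψ) hxψ rfl
          have hδ' : IsK D H (D.fl (D.fl x ψ) φ) δ := by rw [← hb]; exact hδ
          have e1 : δ * rg (D.lg H) (mk H φ (hx.sub hφ.1)) = γ2 :=
            hu2 _ (IsK.step _ φ ha' hφ' _ δ hδ')
          have e2 : γ1 = γ2 := hu2 _ hγ1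
          have hadj : (D.lg H).Adj (mk H φ (hx.sub hφ.1)) (mk H ψ hr) := by
            refine ⟨?_, φ, mem_lab φ, ψ, mem_lab ψ, hc⟩
            intro he
            have he' : D.lab H φ = D.lab H ψ := congrArg Subtype.val he
            have : ψ ∈ D.lab H φ := by rw [he']; exact mem_lab ψ
            exact hne (hD.self x hx φ ψ hφ hψ this).symm
          rw [e2, ← e1, ← e0, mul_assoc, mul_assoc, rg_comm hadj]

end

end H43D

open H43D in
theorem dev_thm (h1 : Stmt_VX1) (h2 : Stmt_VX2) (h3 : Stmt_VX3) (h4 : Stmt_VX4)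
    (hL : Stmt_LSX) : Stmt_DEV := by
  intro D H hD L hfl
  let b : D.X := ⟨D.Ps, (h1 D).1⟩
  have hex : ∀ x : D.X, ∃! γ, IsK D H x.1 γ := fun x => isK_unique h1 h2 h3 h4 hD _ x.1 x.2 rfl
  choose κ hκ hκu using hex
  have hκ : ∀ x : D.X, IsK D H x.1 (κ x) := hκ
  have hκu : ∀ (x : D.X) (γ : RC (D.lg H)), IsK D H x.1 γ → γ = κ x := hκu
  have hb : κ b = 1 := (hκu b 1 IsK.base).symm
  -- going down
  have hdown : ∀ (x : D.X) (φ : D.V) (hφ : D.Mn x.1 φ) (_ : φ ∉ D.Ps),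
      κ x = κ ⟨D.fl x.1 φ, (h2 D x.1 x.2 φ hφ).1⟩ * rg (D.lg H) (mk H φ (x.2.sub hφ.1)) := by
    intro x φ hφ hφ'
    exact (hκu x _ (IsK.step x.1 φ hφ hφ' _ _ (hκ ⟨D.fl x.1 φ, (h2 D x.1 x.2 φ hφ).1⟩))).symm
  have hstep : ∀ a x, L.τ a x ≠ x → κ (L.τ a x) = κ x * rg (D.lg H) a := by
    intro a x hne
    obtain ⟨i1, i2⟩ := hfl a x
    have : ∃ φ, D.Mn x.1 φ ∧ φ ∈ a.1 := by
      by_contra hcon
      push Not at hcon
      exact hne (i2 hcon)
    obtain ⟨φ, hφ, hφa⟩ := this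
    have hτ : L.τ a x = ⟨D.fl x.1 φ, (h2 D x.1 x.2 φ hφ).1⟩ := Subtype.ext (i1 φ hφ hφa)
    have hr : φ ∈ D.Rt := x.2.sub hφ.1
    have hmk : a = mk H φ hr := mk_eq_of_mem hr hφa
    rw [hτ, hmk]
    by_cases hp : φ ∈ D.Ps
    · have hn := neg_not_Ps h1 hp
      have hv := (h2 D x.1 x.2 φ hφ)
      have hd := hdown ⟨D.fl x.1 φ, hv.1⟩ (-φ) hv.2.1 hn
      rw [hd]
      have e1 : (⟨D.fl (D.fl x.1 φ) (-φ), (h2 D _ hv.1 (-φ) hv.2.1).1⟩ : D.X) = x :=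
        Subtype.ext hv.2.2.1
      have e1' : (⟨D.fl (⟨D.fl x.1 φ, hv.1⟩ : D.X).1 (-φ), (h2 D _ hv.1 (-φ) hv.2.1).1⟩ : D.X) = x :=
        e1
      rw [e1', mk_neg hr]
    · rw [hdown x φ hφ hp, mul_assoc, rg_mul_self, mul_one]
  -- induction on the distance to b, through a flip
  have hind : ∀ p : D.X → Prop, p b → (∀ (x : D.X) (a : D.Lb H), p x → L.τ a x ≠ x →
      p (L.τ a x)) → ∀ x, p x := by
    intro p hpb hps
    have : ∀ n : ℕ, ∀ x : D.X, (x.1 \ D.Ps).ncard = n → p x := by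
      intro n
      induction n with
      | zero =>
        intro x hx
        have : x = b := Subtype.ext (eq_Ps h1 x.2 hx)
        rw [this]; exact hpb
      | succ n ih =>
        intro x hx
        obtain ⟨φ, hφ, hφ'⟩ := exists_down h1 h4 x.2 (by omega)
        have hv := h2 D x.1 x.2 φ hφ
        have hc := fl_card h1 x.2 hφ hφ'
        have hr : φ ∈ D.Rt := x.2.sub hφ.1
        have hz := ih ⟨D.fl x.1 φ, hv.1⟩ (by change (D.fl x.1 φ \ D.Ps).ncard = n; omega)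
        have hτ : L.τ (mk H φ hr) ⟨D.fl x.1 φ, hv.1⟩ = x := by
          apply Subtype.ext
          rw [(hfl (mk H φ hr) ⟨D.fl x.1 φ, hv.1⟩).1 (-φ) hv.2.1 (neg_mem_lab φ)]
          exact hv.2.2.1
        have hne : L.τ (mk H φ hr) ⟨D.fl x.1 φ, hv.1⟩ ≠ ⟨D.fl x.1 φ, hv.1⟩ := by
          rw [hτ]
          intro he
          exact hv.2.2.2.1 (congrArg Subtype.val he).symm
        have := hps _ _ hz hne
        rwa [hτ] at this
    intro x
    exact this _ x rfl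
  have hpath : ∀ x, L.r b (κ x) = x := by
    apply hind
    · rw [hb, LS.r_one]
    · intro x a hx hne
      rw [hstep a x hne, LS.r_mul, hx, LS.r_rg]
  have hequi := (hL D H hD).2 L hfl
  -- translates
  let tr : D.W → D.X → D.X := fun w x => ⟨D.act w x.1, (h1 D).2.1 x.1 x.2 w⟩
  have htr1 : ∀ x, tr 1 x = x := fun x => Subtype.ext ((h1 D).2.2.1 x.1)
  have htrm : ∀ w w' x, tr (w * w') x = tr w (tr w' x) := fun w w' x =>
    Subtype.ext ((h1 D).2.2.2.1 w w' x.1)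
  have htinj : ∀ w x y, tr w x = tr w y → x = y := by
    intro w x y h
    have := congrArg (tr w⁻¹) h
    rwa [← htrm, ← htrm, inv_mul_cancel, htr1, htr1] at this
  have hhol : ∀ h ∈ H, ∀ x, κ (tr h x) = κ (tr h b) * κ x := by
    intro h hh
    apply hind
    · rw [hb, mul_one]
    · intro x a hx hne
      have e1 : L.τ a (tr h x) = tr h (L.τ a x) := Subtype.ext (hequi h hh a x (tr h x) rfl)
      have hne' : L.τ a (tr h x) ≠ tr h x := by
        rw [e1]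
        intro he
        exact hne (htinj h _ _ he)
      rw [← e1, hstep a (tr h x) hne', hx, hstep a x hne, mul_assoc]
  let c : H →* RC (D.lg H) :=
    { toFun := fun h => κ (tr h.1 b)
      map_one' := by
        change κ (tr 1 b) = 1
        rw [htr1, hb]
      map_mul' := by
        intro h h'
        change κ (tr (h.1 * h'.1) b) = κ (tr h.1 b) * κ (tr h'.1 b)
        rw [htrm, hhol h.1 h.2] }
  refine ⟨b, κ, c, ⟨rfl, hb, hstep, hpath, ?_⟩, ?_⟩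
  · intro h x y hy
    have : y = tr h.1 x := Subtype.ext hy
    rw [this]
    exact hhol h.1 h.2 x
  · rw [injective_iff_map_eq_one]
    intro h hh
    have h0 : κ (tr h.1 b) = 1 := hh
    have h5 := hpath (tr h.1 b)
    rw [h0, LS.r_one] at h5
    have h6 : D.act h.1 D.Ps = D.Ps := (congrArg Subtype.val h5).symm
    exact Subtype.ext ((h1 D).2.2.2.2.2.2.2.1 h.1 h6)

end Pool.CS
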