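import Pool.Agent.Work.MP_64ea0f_cs.InterfaceB

set_option autoImplicit false

/-! # Block LBF (helper43): finitely many labels -/

namespace Pool.CS
namespace H43

variable {D : Rd}

theorem lab_translate {H : Subgroup D.W} {h : D.W} (hh : h ∈ H) (φ : D.V) :
    D.lab H (D.ρ h φ) = D.lab H φ := by
  ext ψ
  constructor
  · rintro ⟨k, hk, hψ⟩
    refine ⟨k * h, H.mul_mem hk hh, ?_⟩
    rw [map_mul]
    exact hψ
  · rintro ⟨k, hk, hψ⟩
    refine ⟨k * h⁻¹, H.mul_mem hk (H.inv_mem hh), ?_⟩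
    have e : D.ρ (k * h⁻¹) (D.ρ h φ) = D.ρ k φ := by
      rw [← Module.End.mul_apply, ← map_mul, inv_mul_cancel_right]
    rw [e]
    exact hψ

end H43

open H43 in
theorem lbf_thm : Stmt_LBF := by
  intro D H hH
  have := hH
  have := D.fS
  let f : (D.W ⧸ H) × D.S → D.Lb H := fun p =>
    ⟨D.lab H (D.ρ (Quotient.out p.1)⁻¹ (D.e p.2)), _, ⟨_, _, rfl⟩, rfl⟩
  have : Finite ((D.W ⧸ H) × D.S) := inferInstance
  refine Finite.of_surjective f ?_
  rintro ⟨a, φ, ⟨w, s, rfl⟩, rfl⟩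
  refine ⟨((w⁻¹ : D.W), s), ?_⟩
  apply Subtype.ext
  change D.lab H (D.ρ (Quotient.out ((w⁻¹ : D.W) : D.W ⧸ H))⁻¹ (D.e s)) = D.lab H (D.ρ w (D.e s))
  obtain ⟨h, hh⟩ := QuotientGroup.mk_out_eq_mul H w⁻¹
  rw [hh, mul_inv_rev, inv_inv, map_mul, Module.End.mul_apply]
  exact lab_translate (H.inv_mem h.2) _

end Pool.CS
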