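import Pool.Agent.Work.MP_64ea0f_cs_helper43.C_SYM

set_option autoImplicit false

/-! # Block C_REC (helper43): finitely many cuts modulo the shifts by multiples of three -/

namespace Pool.CS
namespace H43C

variable {Λ : Type} {G : SimpleGraph Λ} (H : Per G)

open Classical in
/-- the threshold of `D` at the place `j` -/
noncomputable def thr (D : Set ℤ) (j : ℤ) : ℤ :=
  if h : ∃ a : ℤ, ∀ n : ℤ, j + H.k * n ∈ D ↔ n ≤ a then h.choose else 0

theorem thr_spec (hT : Stmt_C_THR) {D : Set ℤ} (hD : H.Cut D) {j : ℤ} (hj : ¬ H.iso (H.s j))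
    (n : ℤ) : j + H.k * n ∈ D ↔ n ≤ thr H D j := by
  have h := hT Λ G H D hD j hj
  rw [thr, dif_pos h]
  exact h.choose_spec n

theorem thr_step (hT : Stmt_C_THR) {D : Set ℤ} (hD : H.Cut D) {i j : ℤ} (hi : ¬ H.iso (H.s i))
    (hj : ¬ H.iso (H.s j)) (hij : i < j) (hjk : j < i + H.k) (hd : dep G (H.s i) (H.s j)) :
    thr H D j ≤ thr H D i ∧ thr H D i ≤ thr H D j + 1 := by
  have act : ∀ p n : ℤ, ¬ H.iso (H.s p) → H.act (p + H.k * n) := by
    intro p n hp
    left; rw [per_mul]; exact hp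
  constructor
  · rw [← thr_spec H hT hD hi]
    refine hD.1 _ (j + H.k * thr H D j) (act i _ hi) (act j _ hj) (by omega) ?_ ?_
    · rw [per_mul, per_mul]; exact hd
    · rw [thr_spec H hT hD hj]
  · have h : j + H.k * (thr H D i - 1) ∈ D := by
      refine hD.1 _ (i + H.k * thr H D i) (act j _ hj) (act i _ hi) ?_ ?_ ?_
      · have : (H.k : ℤ) * (thr H D i - 1) = H.k * thr H D i - H.k := by ring
        rw [this]; omega
      · rw [per_mul, per_mul]; exact dep_symm hd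
      · rw [thr_spec H hT hD hi]
    rw [thr_spec H hT hD hj] at h
    omega

end H43C

open H43C in
theorem c_rec_thm (hT : Stmt_C_THR) : Stmt_C_REC := by
  intro Λ G H
  have hk := kpos H
  refine ⟨(Fin H.k → ZMod 3) × (Fin H.k → Prop), inferInstance,
    fun D => (fun j => ((thr H D ((j:ℕ) + 1 : ℤ) : ℤ) : ZMod 3), fun j => ((j:ℕ) + 1 : ℤ) ∈ D), ?_⟩
  intro D D' hD hD' hrec
  have h1 := congrArg Prod.fst hrec
  have h2 := congrArg Prod.snd hrec
  have hthr : ∀ p : ℤ, 1 ≤ p → p ≤ H.k → (3:ℤ) ∣ thr H D' p - thr H D p := by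
    intro p hp1 hp2
    have h := congrFun h1 ⟨(p - 1).toNat, by omega⟩
    have e : (((p - 1).toNat : ℕ) + 1 : ℤ) = p := by omega
    simp only [e] at h
    exact (ZMod.intCast_eq_intCast_iff_dvd_sub _ _ 3).1 h
  have hbit : ∀ p : ℤ, 1 ≤ p → p ≤ H.k → (p ∈ D ↔ p ∈ D') := by
    intro p hp1 hp2
    have h := congrFun h2 ⟨(p - 1).toNat, by omega⟩
    have e : (((p - 1).toNat : ℕ) + 1 : ℤ) = p := by omega
    simp only [e] at h
    exact iff_of_eq h
  let F : ℤ → ℤ := fun p => thr H D' p - thr H D p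
  -- the differences agree on dependent letters
  have key' : ∀ p q : ℤ, 1 ≤ p → p ≤ H.k → 1 ≤ q → q ≤ H.k → ¬ H.iso (H.s p) →
      ¬ H.iso (H.s q) → dep G (H.s p) (H.s q) → p < q → F p = F q := by
    intro p q hp1 hp2 hq1 hq2 hp hq hd hpq
    have a := thr_step H hT hD hp hq hpq (by omega) hd
    have a' := thr_step H hT hD' hp hq hpq (by omega) hd
    have dp := hthr p hp1 hp2
    have dq := hthr q hq1 hq2
    change thr H D' p - thr H D p = thr H D' q - thr H D q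
    omega
  have key : ∀ p q : ℤ, 1 ≤ p → p ≤ H.k → 1 ≤ q → q ≤ H.k → ¬ H.iso (H.s p) →
      ¬ H.iso (H.s q) → dep G (H.s p) (H.s q) → F p = F q := by
    intro p q hp1 hp2 hq1 hq2 hp hq hd
    rcases lt_trichotomy p q with h | h | h
    · exact key' p q hp1 hp2 hq1 hq2 hp hq hd h
    · rw [h]
    · exact (key' q p hq1 hq2 hp1 hp2 hq hp (dep_symm hd) h).symm
  classical
  let f : Λ → ℤ := fun t =>
    if h : ∃ p : ℤ, (1 ≤ p ∧ p ≤ H.k) ∧ ¬ H.iso (H.s p) ∧ H.s p = t then F h.choose else 0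
  have hf : ∀ p : ℤ, 1 ≤ p → p ≤ H.k → ¬ H.iso (H.s p) → f (H.s p) = F p := by
    intro p hp1 hp2 hp
    have h : ∃ q : ℤ, (1 ≤ q ∧ q ≤ H.k) ∧ ¬ H.iso (H.s q) ∧ H.s q = H.s p :=
      ⟨p, ⟨hp1, hp2⟩, hp, rfl⟩
    change (if h : ∃ q : ℤ, (1 ≤ q ∧ q ≤ H.k) ∧ ¬ H.iso (H.s q) ∧ H.s q = H.s p then
      F h.choose else 0) = F p
    rw [dif_pos h]
    have hs := h.choose_spec
    exact key _ p hs.1.1 hs.1.2 hp1 hp2 hs.2.1 hp (Or.inl hs.2.2)
  have hf0 : ∀ t, (∀ p : ℤ, ¬ H.iso (H.s p) → H.s p ≠ t) → f t = 0 := by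
    intro t ht
    have h : ¬ ∃ q : ℤ, (1 ≤ q ∧ q ≤ H.k) ∧ ¬ H.iso (H.s q) ∧ H.s q = t := by
      rintro ⟨q, _, h3, h4⟩
      exact ht q h3 h4
    exact dif_neg h
  have hfiso : ∀ t, H.iso t → f t = 0 := fun t ht => hf0 t fun p hp he => hp (by rw [he]; exact ht)
  refine ⟨f, ⟨?_, hfiso, ?_⟩, ?_, ?_⟩
  · intro i j hd
    by_cases hi : H.iso (H.s i)
    · rw [iso_dep_eq H hd hi]
    · have hj : ¬ H.iso (H.s j) := by
        intro hj
        have := iso_dep_eq H (dep_symm hd) hj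
        rw [this] at hi
        exact hi hj
      obtain ⟨p, n, hp1, hp2, rfl⟩ := rep H i
      obtain ⟨q, m, hq1, hq2, rfl⟩ := rep H j
      rw [per_mul] at hi hd ⊢
      rw [per_mul] at hj hd ⊢
      rw [hf p hp1 hp2 hi, hf q hq1 hq2 hj]
      exact key p q hp1 hp2 hq1 hq2 hi hj hd
  · intro t ht
    exact hf0 t fun p _ he => ht ⟨p, he⟩
  · intro t
    by_cases h : ∃ q : ℤ, (1 ≤ q ∧ q ≤ H.k) ∧ ¬ H.iso (H.s q) ∧ H.s q = t
    · have e : f t = F h.choose := dif_pos h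
      rw [e]
      exact hthr _ h.choose_spec.1.1 h.choose_spec.1.2
    · have e : f t = 0 := dif_neg h
      rw [e]
      exact dvd_zero 3
  · ext i
    rw [mem_sh]
    obtain ⟨p, n, hp1, hp2, hi⟩ := rep H i
    have hs : H.s i = H.s p := by rw [hi, per_mul]
    by_cases hp : H.iso (H.s p)
    · rw [hs, hfiso _ hp, mul_zero, sub_zero]
      by_cases ha : H.act i
      · have := act_iso H (by rw [hs]; exact hp) ha
        exact (hbit i this.1 this.2).symm
      · rw [hD.2.1 i ha, hD'.2.1 i ha]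
    · rw [hs, hf p hp1 hp2 hp, hi, thr_spec H hT hD' hp]
      have e : p + H.k * n - H.k * F p = p + H.k * (n - F p) := by ring
      rw [e, thr_spec H hT hD hp]
      change n ≤ thr H D' p ↔ n - (thr H D' p - thr H D p) ≤ thr H D p
      omega

end Pool.CS
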